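import Pool.Agent.F5S.Stmts

/-!
MP_f5cbfa_nt, squad F5S: row AEB.
-/

set_option autoImplicit false

open MeasureTheory Filter Topology

namespace Pool.Agent.F5S.H69aeb

open Pool.Agent.BTL

/-- `((1+η)^k)^x = ((1+η)^x)^k` -/
theorem geo_rpow {q : ℝ} (hq : 0 ≤ q) (k : ℕ) (x : ℝ) : (q ^ k) ^ x = (q ^ x) ^ k := by
  rw [← Real.rpow_natCast, ← Real.rpow_natCast, ← Real.rpow_mul hq, ← Real.rpow_mul hq, mul_comm]

/-- the power of `K` -/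
theorem K_bound {T del1 m : ℝ} (hT : 1 ≤ T) (hm : m ≤ del1 / 8) :
    (T ^ (del1 / 2) / 3) ^ (-(1 / 4) : ℝ) ≤ 3 * T ^ (-m) := by
  have hT0 : 0 < T := by linarith
  have h1 : 0 < T ^ (del1 / 2) := Real.rpow_pos_of_pos hT0 _
  rw [Real.div_rpow h1.le (by norm_num), ← Real.rpow_mul hT0.le]
  have h2 : T ^ (del1 / 2 * -(1 / 4)) ≤ T ^ (-m) :=
    Real.rpow_le_rpow_of_exponent_le hT (by linarith)
  have h3 : ((3 : ℝ) ^ (-(1 / 4) : ℝ))⁻¹ ≤ 3 := by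
    rw [← Real.rpow_neg (by norm_num)]
    calc (3 : ℝ) ^ (- -(1 / 4) : ℝ) ≤ (3 : ℝ) ^ (1 : ℝ) :=
          Real.rpow_le_rpow_of_exponent_le (by norm_num) (by norm_num)
      _ = 3 := Real.rpow_one 3
  rw [div_eq_mul_inv, mul_comm]
  exact mul_le_mul h3 h2 (Real.rpow_pos_of_pos hT0 _).le (by norm_num)

/-- row AEB -/
theorem aeb (hBCL : BCLStmt) (hMNB : MNBStmt) (hbad : S_bad_int) : AEBStmt := by
  intro M a b c d η del1 hM hη hdel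
  obtain ⟨L, hL⟩ : ∃ L : ℝ, L = 1 + |a| + |b| + |c| + |d| := ⟨_, rfl⟩
  have ha := abs_nonneg a
  have hb := abs_nonneg b
  have hc := abs_nonneg c
  have hd := abs_nonneg d
  obtain ⟨C, hC, hCT⟩ := hbad M L hM (by linarith)
  have hq : (0 : ℝ) < 1 + η := by linarith
  have hT : ∀ k : ℕ, 1 ≤ (1 + η) ^ k := fun k => one_le_pow₀ (by linarith)
  have hTpos : ∀ k : ℕ, 0 < (1 + η) ^ k := fun k => pow_pos hq k
  obtain ⟨m, hm0, hm1, hm2⟩ : ∃ m : ℝ, 0 < m ∧ m ≤ del1 / 8 ∧ m ≤ 1 / 4 :=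
    ⟨min (del1 / 8) (1 / 4), lt_min (by linarith) (by norm_num), min_le_left _ _, min_le_right _ _⟩
  have hr0 : 0 < (1 + η) ^ (-m) := Real.rpow_pos_of_pos hq _
  have hr1 : (1 + η) ^ (-m) < 1 := Real.rpow_lt_one_of_one_lt_of_neg (by linarith) (by linarith)
  have hbig : ∃ k0 : ℕ, ∀ k, k0 ≤ k → 3 ≤ ((1 + η) ^ k) ^ (del1 / 2) := by
    have h1 : Tendsto (fun k : ℕ => ((1 + η) ^ (del1 / 2)) ^ k) atTop atTop :=
      tendsto_pow_atTop_atTop_of_one_lt (Real.one_lt_rpow (by linarith) (by linarith))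
    obtain ⟨k0, hk0⟩ := (eventually_atTop.1 (h1.eventually_ge_atTop 3))
    refine ⟨k0, fun k hk => ?_⟩
    rw [geo_rpow hq.le]
    exact hk0 k hk
  obtain ⟨k0, hk0⟩ := hbig
  refine hBCL (ℝ × ℝ × ℝ) (volume.restrict (KM M)) (fun k A =>
    NB ((1 + η) ^ k) (((1 + η) ^ k) ^ (del1 / 2) / 3) a b c d A / ((1 + η) ^ k) ^ 2) ?_
    ((1 + η) ^ (-m)) (4 * C) hr0 hr1 k0 ?_
  · intro k
    exact ((hMNB _ _ a b c d).div_const _).aemeasurable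
  · intro k hk
    have h1 := (hCT ((1 + η) ^ k) (((1 + η) ^ k) ^ (1 / 4 : ℝ)) (((1 + η) ^ k) ^ (del1 / 2) / 3)
      a b c d (hT k) (Real.one_le_rpow (hT k) (by norm_num))
      (le_of_eq (by
        rw [← Real.rpow_natCast, ← Real.rpow_mul (hTpos k).le]
        norm_num))
      (by have := hk0 k hk; linarith) (by linarith) (by linarith) (by linarith) (by linarith)).1
    have h2 : 0 < (((1 + η) ^ k) ^ 2)⁻¹ := inv_pos.2 (pow_pos (hTpos k) 2)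
    have hNB : ∀ A : ℝ × ℝ × ℝ,
        0 ≤ NB ((1 + η) ^ k) (((1 + η) ^ k) ^ (del1 / 2) / 3) a b c d A := by
      intro A
      unfold NB
      exact Finset.sum_nonneg fun t _ => wnd_nonneg _ _ _ _ _
    have h3 : ∀ A : ℝ × ℝ × ℝ, ENNReal.ofReal |NB ((1 + η) ^ k) (((1 + η) ^ k) ^ (del1 / 2) / 3)
        a b c d A / ((1 + η) ^ k) ^ 2| =
        ENNReal.ofReal (((1 + η) ^ k) ^ 2)⁻¹ * ENNReal.ofReal
        (NB ((1 + η) ^ k) (((1 + η) ^ k) ^ (del1 / 2) / 3) a b c d A) := by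
      intro A
      rw [← ENNReal.ofReal_mul h2.le, abs_of_nonneg (div_nonneg (hNB A) (sq_nonneg _)),
        div_eq_inv_mul]
    simp_rw [h3]
    rw [lintegral_const_mul' _ _ ENNReal.ofReal_ne_top]
    refine (mul_le_mul_right h1 _).trans ?_
    rw [← ENNReal.ofReal_mul h2.le]
    refine ENNReal.ofReal_le_ofReal ?_
    have h4 := K_bound (hT k) hm1
    have h5 : (((1 + η) ^ k) ^ (1 / 4 : ℝ))⁻¹ ≤ ((1 + η) ^ k) ^ (-m) := by
      rw [← Real.rpow_neg (hTpos k).le]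
      exact Real.rpow_le_rpow_of_exponent_le (hT k) (by linarith)
    rw [← geo_rpow hq.le]
    have h6 : (((1 + η) ^ k) ^ 2)⁻¹ * (C * ((1 + η) ^ k) ^ 2 *
        ((((1 + η) ^ k) ^ (del1 / 2) / 3) ^ (-(1 / 4) : ℝ) + (((1 + η) ^ k) ^ (1 / 4 : ℝ))⁻¹)) =
        C * ((((1 + η) ^ k) ^ (del1 / 2) / 3) ^ (-(1 / 4) : ℝ) +
          (((1 + η) ^ k) ^ (1 / 4 : ℝ))⁻¹) := by
      have h7 := (pow_pos (hTpos k) 2).ne'
      rw [mul_comm C, mul_assoc, ← mul_assoc, inv_mul_cancel₀ h7, one_mul]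
    rw [h6]
    calc C * ((((1 + η) ^ k) ^ (del1 / 2) / 3) ^ (-(1 / 4) : ℝ) +
          (((1 + η) ^ k) ^ (1 / 4 : ℝ))⁻¹)
        ≤ C * (3 * ((1 + η) ^ k) ^ (-m) + ((1 + η) ^ k) ^ (-m)) :=
          mul_le_mul_of_nonneg_left (add_le_add h4 h5) (by linarith)
      _ = _ := by ring

end Pool.Agent.F5S.H69aeb
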