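import Pool.Agent.F5S.Stmts

/-!
MP_f5cbfa_nt, squad F5S: row AEH.
-/

set_option autoImplicit false

open MeasureTheory Filter Topology

namespace Pool.Agent.F5S.H69

open Pool.Agent.BTL

/-- `((1+η)^k)^x = ((1+η)^x)^k` -/
theorem geo_rpow {q : ℝ} (hq : 0 ≤ q) (k : ℕ) (x : ℝ) : (q ^ k) ^ x = (q ^ x) ^ k := by
  rw [← Real.rpow_natCast, ← Real.rpow_natCast, ← Real.rpow_mul hq, ← Real.rpow_mul hq, mul_comm]

/-- row AEH -/
theorem aeh (hBCL : BCLStmt) (hMSW : MSWStmt) : AEHStmt := by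
  intro lam del1 del hdel hH M hM e p he η hη W hW h01 hgood hlip
  obtain ⟨C, hC, hCT⟩ := hH M hM e he p
  have hq : (0 : ℝ) < 1 + η := by linarith
  have hT : ∀ k : ℕ, 1 ≤ (1 + η) ^ k := fun k => one_le_pow₀ (by linarith)
  have hTpos : ∀ k : ℕ, 0 < (1 + η) ^ k := fun k => pow_pos hq k
  have hr0 : 0 < (1 + η) ^ (-del) := Real.rpow_pos_of_pos hq _
  have hr1 : (1 + η) ^ (-del) < 1 := Real.rpow_lt_one_of_one_lt_of_neg (by linarith) (by linarith)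
  refine hBCL (ℝ × ℝ × ℝ) (volume.restrict (KM M)) (fun k A =>
    (SW ((1 + η) ^ k) (((1 + η) ^ k) ^ lam) e (W k) p A - IW (((1 + η) ^ k) ^ lam) e (W k) p A) /
      ((1 + η) ^ k) ^ 2) ?_ ((1 + η) ^ (-del)) C hr0 hr1 0 ?_
  · intro k
    have h1 := hMSW ((1 + η) ^ k) (((1 + η) ^ k) ^ lam) e (W k) p
      (Real.rpow_pos_of_pos (hTpos k) _) he (hW k) (h01 k)
    exact ((h1.1.sub h1.2).div_const _).aemeasurable
  · intro k _
    have h1 := hCT ((1 + η) ^ k) (hT k) (W k) (hW k) (h01 k) (hgood k) (hlip k)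
    have h2 : 0 < (((1 + η) ^ k) ^ 2)⁻¹ := inv_pos.2 (pow_pos (hTpos k) 2)
    have h3 : ∀ A : ℝ × ℝ × ℝ, ENNReal.ofReal |(SW ((1 + η) ^ k) (((1 + η) ^ k) ^ lam) e (W k) p A -
        IW (((1 + η) ^ k) ^ lam) e (W k) p A) / ((1 + η) ^ k) ^ 2| =
        ENNReal.ofReal (((1 + η) ^ k) ^ 2)⁻¹ * ENNReal.ofReal
        |SW ((1 + η) ^ k) (((1 + η) ^ k) ^ lam) e (W k) p A -
        IW (((1 + η) ^ k) ^ lam) e (W k) p A| := by
      intro A
      rw [← ENNReal.ofReal_mul h2.le, abs_div, abs_of_pos (pow_pos (hTpos k) 2), div_eq_inv_mul]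
    simp_rw [h3]
    rw [lintegral_const_mul' _ _ ENNReal.ofReal_ne_top]
    refine (mul_le_mul_right h1 _).trans ?_
    rw [← ENNReal.ofReal_mul h2.le]
    refine ENNReal.ofReal_le_ofReal (le_of_eq ?_)
    rw [← geo_rpow hq.le, Real.rpow_sub (hTpos k), Real.rpow_neg (hTpos k).le, Real.rpow_two]
    have h4 := (Real.rpow_pos_of_pos (hTpos k) del).ne'
    have h5 := (hTpos k).ne'
    field_simp

end Pool.Agent.F5S.H69
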