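import Pool.Agent.F5S.Stmts

/-!
MP_f5cbfa_nt, squad F5S: row FAC.
-/

set_option autoImplicit false

open MeasureTheory Filter Topology

namespace Pool.Agent.F5S.H69fac

open Pool.Agent.BTL

/-- the integrand -/
noncomputable def FF (e : ℝ) (p : ℝ × ℝ) (A : ℝ × ℝ × ℝ) (x : R6) (s : ℝ) : ℝ :=
  tn ((qf A x.1 - (s + (p.1 + p.2))) / e) *
    (tn ((qf A x.2.1 - (s + p.2)) / e) * tn ((qf A x.2.2 - s) / e))

theorem continuous_qf (A : ℝ × ℝ × ℝ) : Continuous (qf A) := by
  unfold qf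
  fun_prop

theorem continuous_FF (hTNF : TNFStmt) (e : ℝ) (p : ℝ × ℝ) (A : ℝ × ℝ × ℝ) :
    Continuous (fun z : R6 × ℝ => FF e p A z.1 z.2) := by
  have ht : Continuous tn := hTNF.2.2.1
  have hq := continuous_qf A
  unfold FF
  refine (ht.comp ?_).mul ((ht.comp ?_).mul (ht.comp ?_))
  · exact ((hq.comp (continuous_fst.comp continuous_fst)).sub
      (continuous_snd.add continuous_const)).div_const e
  · exact ((hq.comp (continuous_fst.comp (continuous_snd.comp continuous_fst))).sub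
      (continuous_snd.add continuous_const)).div_const e
  · exact ((hq.comp (continuous_snd.comp (continuous_snd.comp continuous_fst))).sub
      continuous_snd).div_const e

theorem kk_eq (hTNF : TNFStmt) (e : ℝ) (p : ℝ × ℝ) (A : ℝ × ℝ × ℝ) (x : R6) :
    kk e (difr A x - p) = ∫ s, FF e p A x s := by
  unfold kk
  rw [← integral_add_right_eq_self (fun s => FF e p A x s) (qf A x.2.2)]
  refine integral_congr_ae (Eventually.of_forall fun s => ?_)
  have h1 : (difr A x - p).1 + (difr A x - p).2 - s =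
      qf A x.1 - (s + qf A x.2.2 + (p.1 + p.2)) := by
    simp only [difr, Prod.fst_sub, Prod.snd_sub]
    ring
  have h2 : (difr A x - p).2 - s = qf A x.2.1 - (s + qf A x.2.2 + p.2) := by
    simp only [difr, Prod.snd_sub]
    ring
  have h3 : (qf A x.2.2 - (s + qf A x.2.2)) / e = -(s / e) := by
    ring
  simp only [FF]
  rw [h1, h2, h3, hTNF.2.1]

theorem isOpen_nlt (R : ℝ) : IsOpen {x : R6 | nlt R x} := by
  have h : {x : R6 | nlt R x} = {x : R6 | nr x.1 < R ^ 2} ∩ ({x : R6 | nr x.2.1 < R ^ 2} ∩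
      {x : R6 | nr x.2.2 < R ^ 2}) := rfl
  rw [h]
  refine IsOpen.inter ?_ (IsOpen.inter ?_ ?_)
  · exact isOpen_lt (by unfold nr; fun_prop) continuous_const
  · exact isOpen_lt (by unfold nr; fun_prop) continuous_const
  · exact isOpen_lt (by unfold nr; fun_prop) continuous_const

theorem norm_le_of_nr {R : ℝ} {y : ℝ × ℝ} (h : nr y < R ^ 2) : ‖y‖ ≤ |R| := by
  unfold nr at h
  rw [Prod.norm_def, max_le_iff, Real.norm_eq_abs, Real.norm_eq_abs]
  constructor
  · exact sq_le_sq.1 (by nlinarith [sq_nonneg y.2])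
  · exact sq_le_sq.1 (by nlinarith [sq_nonneg y.1])

theorem volume_nlt_lt_top (R : ℝ) : volume {x : R6 | nlt R x} < ⊤ := by
  have h1 : {x : R6 | nlt R x} ⊆ Metric.closedBall 0 |R| := by
    intro x hx
    rw [mem_closedBall_zero_iff, Prod.norm_def, Prod.norm_def x.2]
    exact max_le (norm_le_of_nr hx.1) (max_le (norm_le_of_nr hx.2.1) (norm_le_of_nr hx.2.2))
  exact (measure_mono h1).trans_lt measure_closedBall_lt_top

/-- `qf A` is bounded on the disc -/
theorem qf_bdd (A : ℝ × ℝ × ℝ) (T : ℝ) : ∃ B : ℝ, ∀ y : ℝ × ℝ, nr y < T ^ 2 → |qf A y| ≤ B := by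
  have hc : IsCompact (Metric.closedBall (0 : ℝ × ℝ) |T|) := isCompact_closedBall _ _
  obtain ⟨B, hB⟩ := hc.exists_bound_of_continuousOn (continuous_qf A).continuousOn
  refine ⟨B, fun y hy => ?_⟩
  have := hB y (mem_closedBall_zero_iff.2 (norm_le_of_nr hy))
  rwa [Real.norm_eq_abs] at this

/-- row FAC -/
theorem fac (hTNF : TNFStmt) : FACStmt := by
  intro T e hT he p A
  have h01 := hTNF.1
  have hS : MeasurableSet {x : R6 | nlt T x} := (isOpen_nlt T).measurableSet
  obtain ⟨B, hB⟩ := qf_bdd A T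
  have hFF1 : ∀ x s, 0 ≤ FF e p A x s ∧ FF e p A x s ≤ 1 := by
    intro x s
    unfold FF
    refine ⟨mul_nonneg (h01 _).1 (mul_nonneg (h01 _).1 (h01 _).1), ?_⟩
    exact mul_le_one₀ (h01 _).2 (mul_nonneg (h01 _).1 (h01 _).1)
      (mul_le_one₀ (h01 _).2 (h01 _).1 (h01 _).2)
  have hFF0 : ∀ x : R6, nlt T x → ∀ s, s ∉ Set.Icc (-(B + e)) (B + e) → FF e p A x s = 0 := by
    intro x hx s hs
    have h1 : 1 ≤ |(qf A x.2.2 - s) / e| := by
      rw [abs_div, abs_of_pos he, le_div_iff₀ he, one_mul]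
      by_contra hlt
      push Not at hlt
      have h2 := hB x.2.2 hx.2.2
      rw [abs_lt] at hlt
      rw [abs_le] at h2
      exact hs ⟨by linarith, by linarith⟩
    unfold FF
    rw [hTNF.2.2.2.1 _ h1, mul_zero, mul_zero]
  -- integrability
  have hint : Integrable (fun z : R6 × ℝ => FF e p A z.1 z.2)
      ((volume.restrict {x : R6 | nlt T x}).prod volume) := by
    haveI : IsFiniteMeasure (volume.restrict {x : R6 | nlt T x}) :=
      ⟨by rw [Measure.restrict_apply_univ]; exact volume_nlt_lt_top T⟩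
    have hg : Integrable (fun z : R6 × ℝ => (1 : ℝ) *
        (Set.Icc (-(B + e)) (B + e)).indicator (fun _ => (1 : ℝ)) z.2)
        ((volume.restrict {x : R6 | nlt T x}).prod volume) := by
      refine Integrable.mul_prod (f := fun _ : R6 => (1 : ℝ))
        (g := (Set.Icc (-(B + e)) (B + e)).indicator (fun _ => (1 : ℝ))) (integrable_const _) ?_
      exact (integrable_indicator_iff measurableSet_Icc).2
        (integrableOn_const (by rw [Real.volume_Icc]; exact ENNReal.ofReal_ne_top))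
    refine hg.mono' (continuous_FF hTNF e p A).aestronglyMeasurable ?_
    have h2 : (volume.restrict {x : R6 | nlt T x}).prod (volume : Measure ℝ) =
        ((volume : Measure R6).prod (volume : Measure ℝ)).restrict
          ({x : R6 | nlt T x} ×ˢ Set.univ) := by
      rw [← Measure.prod_restrict, Measure.restrict_univ]
    rw [h2]
    refine (ae_restrict_iff' (hS.prod MeasurableSet.univ)).2 (Eventually.of_forall ?_)
    rintro ⟨x, s⟩ ⟨hx, _⟩
    rw [Real.norm_of_nonneg (hFF1 x s).1, one_mul]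
    by_cases hs : s ∈ Set.Icc (-(B + e)) (B + e)
    · rw [Set.indicator_of_mem hs]
      exact (hFF1 x s).2
    · rw [Set.indicator_of_notMem hs]
      exact (hFF0 x hx s hs).le
  unfold BI
  simp_rw [kk_eq hTNF]
  rw [integral_integral_swap hint]
  refine integral_congr_ae (Eventually.of_forall fun s => ?_)
  simp only
  have hprod : {x : R6 | nlt T x} = {y : ℝ × ℝ | nr y < T ^ 2} ×ˢ
      ({y : ℝ × ℝ | nr y < T ^ 2} ×ˢ {y : ℝ × ℝ | nr y < T ^ 2}) := rfl
  rw [hprod]
  unfold FF tt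
  have e1 := setIntegral_prod_mul (μ := (volume : Measure (ℝ × ℝ)))
    (ν := (volume : Measure ((ℝ × ℝ) × (ℝ × ℝ))))
    (fun y : ℝ × ℝ => tn ((qf A y - (s + (p.1 + p.2))) / e))
    (fun z : (ℝ × ℝ) × (ℝ × ℝ) => tn ((qf A z.1 - (s + p.2)) / e) * tn ((qf A z.2 - s) / e))
    {y : ℝ × ℝ | nr y < T ^ 2} ({y : ℝ × ℝ | nr y < T ^ 2} ×ˢ {y : ℝ × ℝ | nr y < T ^ 2})
  have e2 := setIntegral_prod_mul (μ := (volume : Measure (ℝ × ℝ)))
    (ν := (volume : Measure (ℝ × ℝ)))
    (fun y : ℝ × ℝ => tn ((qf A y - (s + p.2)) / e))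
    (fun y : ℝ × ℝ => tn ((qf A y - s) / e))
    {y : ℝ × ℝ | nr y < T ^ 2} {y : ℝ × ℝ | nr y < T ^ 2}
  rw [← Measure.volume_eq_prod] at e1 e2
  exact e1.trans (congrArg _ e2)

end Pool.Agent.F5S.H69fac
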