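import Pool.Agent.F5S.Stmts

/-!
MP_f5cbfa_nt, squad F5S: row IUP.
-/

set_option autoImplicit false

open MeasureTheory Filter Topology

namespace Pool.Agent.F5S.H69

open Pool.Agent.BTL

theorem continuous_difr' (A : ℝ × ℝ × ℝ) : Continuous (fun x : R6 => difr A x) := by
  unfold difr qf
  fun_prop

theorem isOpen_nlt (R : ℝ) : IsOpen {x : R6 | nlt R x} := by
  have h : {x : R6 | nlt R x} = {x : R6 | nr x.1 < R ^ 2} ∩ ({x : R6 | nr x.2.1 < R ^ 2} ∩
      {x : R6 | nr x.2.2 < R ^ 2}) := rfl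
  rw [h]
  refine IsOpen.inter ?_ (IsOpen.inter ?_ ?_)
  · exact isOpen_lt (by unfold nr; fun_prop) continuous_const
  · exact isOpen_lt (by unfold nr; fun_prop) continuous_const
  · exact isOpen_lt (by unfold nr; fun_prop) continuous_const

theorem norm_le_of_nr {R : ℝ} {y : ℝ × ℝ} (h : nr y < R ^ 2) : ‖y‖ ≤ |R| := by
  unfold nr at h
  rw [Prod.norm_def, max_le_iff, Real.norm_eq_abs, Real.norm_eq_abs]
  constructor
  · exact sq_le_sq.1 (by nlinarith [sq_nonneg y.2])
  · exact sq_le_sq.1 (by nlinarith [sq_nonneg y.1])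

theorem volume_nlt_lt_top (R : ℝ) : volume {x : R6 | nlt R x} < ⊤ := by
  have h1 : {x : R6 | nlt R x} ⊆ Metric.closedBall 0 |R| := by
    intro x hx
    rw [mem_closedBall_zero_iff, Prod.norm_def, Prod.norm_def x.2]
    exact max_le (norm_le_of_nr hx.1) (max_le (norm_le_of_nr hx.2.1) (norm_le_of_nr hx.2.2))
  exact (measure_mono h1).trans_lt measure_closedBall_lt_top

theorem integrable_ind (hKKF : KKFStmt) (R e : ℝ) (he : 0 < e) (p : ℝ × ℝ) (A : ℝ × ℝ × ℝ) :
    IntegrableOn (fun x : R6 => kk e (difr A x - p)) {x : R6 | nlt R x} := by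
  have hk : Continuous (kk e) := (hKKF e he).2.1
  refine Measure.integrableOn_of_bounded (M := e) (volume_nlt_lt_top R).ne ?_ ?_
  · exact (hk.comp ((continuous_difr' A).sub continuous_const)).aestronglyMeasurable
  · refine Eventually.of_forall fun x => ?_
    have h := (hKKF e he).1 (difr A x - p)
    rw [Real.norm_of_nonneg h.1]
    exact h.2

/-- row IUP -/
theorem iup (hKKF : KKFStmt) (hWBF : WBFStmt) (hGEO : GEOStmt) (hADV : ADVStmt) : IUPStmt := by
  intro T L K hT hL hK hTL e he p A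
  obtain ⟨⟨hc, _⟩, h01, _, hne, _⟩ := hADV T L K hT hL hK hTL
  obtain ⟨_, hb, _, hex⟩ := hWBF L (Wp T L K) hL hc.measurable h01
  unfold IW BI
  rw [← integral_indicator (isOpen_nlt _).measurableSet]
  refine integral_mono_of_nonneg ?_ ?_ ?_
  · refine Eventually.of_forall fun x => ?_
    exact mul_nonneg (hb x).1 ((hKKF e he).1 _).1
  · exact (integrable_ind hKKF _ e he p A).integrable_indicator (isOpen_nlt _).measurableSet
  · refine Eventually.of_forall fun x => ?_
    have hk := (hKKF e he).1 (difr A x - p)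
    by_cases hx : Wb L (Wp T L K) x = 0
    · simp only [hx, zero_mul]
      exact Set.indicator_nonneg (fun y _ => ((hKKF e he).1 _).1) x
    · obtain ⟨c, hc1, hc2⟩ := hex x hx
      have h1 := (hGEO T L K hT hL hK hTL c x hc2).2.2.2 (hne c hc1).2
      rw [Set.indicator_of_mem (show x ∈ {x : R6 | nlt (T + 4 * L + T / K) x} from h1)]
      calc Wb L (Wp T L K) x * kk e (difr A x - p) ≤ 1 * kk e (difr A x - p) :=
            mul_le_mul_of_nonneg_right (hb x).2 hk.1
        _ = _ := one_mul _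

end Pool.Agent.F5S.H69
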