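import Pool.Agent.F5S.Stmts

/-!
MP_f5cbfa_nt, squad F5S: row MSW.
-/

set_option autoImplicit false

open MeasureTheory Filter Topology

namespace Pool.Agent.F5S.H69

open Pool.Agent.BTL

theorem continuous_dif (t : Z6) : Continuous (fun A : ℝ × ℝ × ℝ => dif A t) := by
  unfold dif qz qf
  fun_prop

theorem continuous_difr : Continuous (fun z : (ℝ × ℝ × ℝ) × R6 => difr z.1 z.2) := by
  unfold difr qf
  fun_prop

/-- row MSW -/
theorem msw (hKKF : KKFStmt) (hWBF : WBFStmt) : MSWStmt := by
  intro T L e W p hL he hW hW1
  have hk : Continuous (kk e) := (hKKF e he).2.1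
  constructor
  · unfold SW
    refine Finset.measurable_sum _ fun t _ => ?_
    exact (hk.comp ((continuous_dif t).sub continuous_const)).measurable.const_mul _
  · unfold IW
    have h1 : Measurable (fun z : (ℝ × ℝ × ℝ) × R6 => Wb L W z.2 * kk e (difr z.1 z.2 - p)) :=
      ((hWBF L W hL hW hW1).1.comp measurable_snd).mul
        (hk.comp (continuous_difr.sub continuous_const)).measurable
    have h2 : StronglyMeasurable (fun A : ℝ × ℝ × ℝ =>
        ∫ x : R6, Wb L W x * kk e (difr A x - p)) :=
      MeasureTheory.StronglyMeasurable.integral_prod_right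
        (f := fun (A : ℝ × ℝ × ℝ) (x : R6) => Wb L W x * kk e (difr A x - p)) h1.stronglyMeasurable
    exact h2.measurable

end Pool.Agent.F5S.H69
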